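import Pool.Agent.W2helper58.IR.Stm
import Pool.Agent.H620R2.Gauge.C

/-!
# Piece GUIDE of project IR
-/

set_option autoImplicit false

namespace Pool.Agent.W2helper60.IR

open Pool.Agent.NPC Pool.Agent.H620R2.Gauge Pool.Agent.W2helper57.LC Pool.Agent.W2helper58.IR
  MeasureTheory

/-- the bounds -/
noncomputable def RR (K : ℕ) (P : ℕ → Polynomial ℕ) (e : ℕ) : Polynomial ℕ :=
  P e + (Polynomial.X + Polynomial.C (e + 1)) ^ K

theorem RR_eval (K : ℕ) (P : ℕ → Polynomial ℕ) (e n : ℕ) :
    (RR K P e).eval n = (P e).eval n + (n + (e + 1)) ^ K := by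
  simp only [RR, Polynomial.eval_add, Polynomial.eval_pow, Polynomial.eval_X, Polynomial.eval_C]

/-- the bits of the value, as a self-delimiting string, are the values of the guide -/
def VV (γ : ℕ → Oracle → List Bool → List Bool) (e : ℕ) (A : Oracle) (y : List Bool) : Prop :=
  ∃ (i : ℕ) (z : List Bool), y = pairBits (List.replicate i true) z ∧
    (pairBits (γ e A z) []).getD i false = true

theorem map_getD (l : List Bool) (m : ℕ) (h : l.length ≤ m) :
    (List.range m).map (fun i => l.getD i false) = l ++ List.replicate (m - l.length) false := by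
  apply List.ext_getElem
  · simp
    omega
  · intro i h1 h2
    simp only [List.getElem_map, List.getElem_range]
    by_cases hi : i < l.length
    · rw [List.getElem_append_left hi, List.getD_eq_getElem _ _ hi]
    · rw [List.getElem_append_right (by omega), List.getD_eq_default _ _ (by omega)]
      simp

theorem pairBits_append (w u v : List Bool) : pairBits w u ++ v = pairBits w (u ++ v) := by
  simp [pairBits]

/-- the questions -/
noncomputable def QQ (K : ℕ) (P : ℕ → Polynomial ℕ) (e : ℕ) (z : List Bool) : List (List Bool) :=
  (List.range (2 * (P e).eval z.length + 2)).map fun i =>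
    code (RR K P) e (pairBits (List.replicate (min i (2 * (P e).eval z.length + 2)) true) z)

theorem poly_QQ (K : ℕ) (P : ℕ → Polynomial ℕ) (e : ℕ) : Poly (QQ K P e) := by
  have h1 : UPoly (fun z : List Bool => 2 * (P e).eval z.length + 2) :=
    ((UPoly.const 2).mul ((UPoly.length Poly.id).eval (P e))).add (UPoly.const 2)
  have h3 : UPoly (fun p : List Bool × ℕ => min p.2 (2 * (P e).eval p.1.length + 2)) :=
    UPoly.of_le (Poly.min (Poly.snd Poly.id) (h1.comp (Poly.fst Poly.id)).toPoly)
      (h1.comp (Poly.fst Poly.id)) fun _ => min_le_right _ _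
  have h2 : Poly (fun p : List Bool × ℕ =>
      List.replicate (min p.2 (2 * (P e).eval p.1.length + 2)) true) :=
    (NPC.Poly.map (F := fun _ _ => true) h3 (NPC.Poly.const true)).congr fun x => by simp
  exact NPC.Poly.map (F := fun (z : List Bool) (i : ℕ) => code (RR K P) e
      (pairBits (List.replicate (min i (2 * (P e).eval z.length + 2)) true) z)) h1.range
    ((CC.poly_code (RR K P) e).comp (H622R2.poly_pairBits h2 (Poly.fst Poly.id)))

theorem p_guide : P_guide := by
  intro K P hK
  refine ⟨{y | ∃ e x, y = code (RR K P) e x}, ?_, ?_, ?_⟩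
  · rintro u ⟨e, x, h⟩
    have h1 := RR_eval K P e x.length
    have h2 : 0 < (RR K P e).eval x.length := by
      rw [h1]
      positivity
    unfold code at h
    rcases e with _ | e
    · obtain ⟨k, hk⟩ : ∃ k, (RR K P 0).eval x.length = k + 1 := ⟨_, (Nat.succ_pred_eq_of_pos h2).symm⟩
      rw [hk] at h
      simp [List.replicate_succ] at h
    · simp [List.replicate_succ] at h
  · intro ε hε hK1
    have h := sparse (RR K P) (fun e n => by rw [RR_eval, add_assoc n e 1]; exact Nat.le_add_left _ _)
      hε hK1
    exact h
  · intro γ hloc hlen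
    have hVV : ∀ e A A' x, (∀ z : List Bool, z.length < (code (RR K P) e x).length → A z = A' z) →
        (VV γ e A x ↔ VV γ e A' x) := by
      intro e A A' x h
      refine exists_congr fun i => exists_congr fun z => and_congr_right fun hz => ?_
      rw [hloc e A A' z]
      intro u _ hu
      apply h
      have h1 := CC.lt_length_code (RR K P) e x
      rw [RR_eval] at h1
      have h2 : z.length ≤ x.length := by
        rw [hz, length_pairBits]
        omega
      have h3 := eval_mono (P e) h2
      omega
    refine ⟨CC.Phi (RR K P) (VV γ) (fun _ => false), fun e => ?_⟩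
    set G := CC.Phi (RR K P) (VV γ) (fun _ => false) with hG
    refine ⟨fun A z => (unpair ((QQ K P e z).map A)).1,
      s_TT (QQ K P e) (fun p => (unpair p.2).1) (poly_QQ K P e)
        ((Poly.fst poly_unpair).comp (Poly.snd Poly.id)), fun A hA z => ?_⟩
    have hval : ∀ i, G (code (RR K P) e (pairBits (List.replicate i true) z)) =
        (pairBits (γ e G z) []).getD i false := by
      intro i
      rw [Bool.eq_iff_iff, hG, CC.Phi_code (RR K P) (VV γ) _ hVV, ← hG]
      constructor
      · rintro ⟨j, z', h1, h2⟩
        have h3 := congrArg unpair h1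
        rw [unpair_pairBits, unpair_pairBits, Prod.mk.injEq] at h3
        obtain ⟨h3, rfl⟩ := h3
        have h4 := congrArg List.length h3
        simp only [List.length_replicate] at h4
        rw [h4]
        exact h2
      · intro h
        exact ⟨i, z, rfl, h⟩
    have hmap : (QQ K P e z).map A = (List.range (2 * (P e).eval z.length + 2)).map
        (fun i => (pairBits (γ e G z) []).getD i false) := by
      unfold QQ
      rw [List.map_map]
      apply List.map_congr_left
      intro i hi
      rw [List.mem_range] at hi
      simp only [Function.comp_apply]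
      rw [min_eq_left hi.le, hA _ ⟨_, _, rfl⟩, hval]
    show (unpair ((QQ K P e z).map A)).1 = γ e G z
    rw [hmap, map_getD, pairBits_append, unpair_pairBits]
    have h1 := hlen e G z
    rw [length_pairBits]
    simp
    omega

end Pool.Agent.W2helper60.IR
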